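import Pool.Agent.H84.PackC

/-! A Borel set of reals with uncountably many, but at most `ℵ₁` many, pairwise disjoint
translates. -/

namespace Pool.Agent.Results.MP_6a38e0_lc.No

open Cardinal

theorem result : ∃ B : Set ℝ, MeasurableSet B ∧
    (∃ X : Set ℝ, ¬ X.Countable ∧
      X.Pairwise fun x y => Disjoint ((· + x) '' B) ((· + y) '' B)) ∧
    (∀ X : Set ℝ, (X.Pairwise fun x y => Disjoint ((· + x) '' B) ((· + y) '' B)) → #X ≤ ℵ₁) ∧
    ((ℵ₁ : Cardinal.{0}) < 𝔠 → ¬ ∃ X : Set ℝ, #X = 𝔠 ∧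
      X.Pairwise fun x y => Disjoint ((· + x) '' B) ((· + y) '' B)) := by
  obtain ⟨B, h1, h2, h3⟩ := Pool.Agent.H84.Pack.main
  exact ⟨B, h1, h2, h3, fun h ⟨X, hX, hX'⟩ => (h.trans_le (hX.ge.trans (h3 X hX'))).false⟩

end Pool.Agent.Results.MP_6a38e0_lc.No
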